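import Pool.Agent.R43.BnrGraph

/-!
# MP_20154b_co: a 2-connected graph with `α_bnr > Γ_b`
-/

set_option autoImplicit false

namespace Pool.Agent.Results.MP_20154b_co.TwoConnected

open Pool.Agent.R43.BnrGraph

/-- `G` is 2-connected: it has at least three vertices, is connected, and has no cut vertex. -/
def IsTwoConnected {V : Type} [Fintype V] (G : SimpleGraph V) : Prop :=
  3 ≤ Fintype.card V ∧ G.Connected ∧ ∀ v, (G.induce {u | u ≠ v}).Connected

/-- There is a 2-connected graph with `α_bnr(G) > Γ_b(G)`. -/
theorem result : ∃ (V : Type) (_ : Fintype V) (_ : DecidableEq V) (G : SimpleGraph V),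
    IsTwoConnected G ∧ upperBroadcast G < bnrNumber G :=
  ⟨Fin 12, inferInstance, inferInstance, G, ⟨by decide, G_connected, delete_connected⟩,
    upper_lt_bnr⟩

end Pool.Agent.Results.MP_20154b_co.TwoConnected
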